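import Pool.Agent.H798.BV.Stm3

set_option autoImplicit false

/-!
# The two variable inequality S_BR2 (project B3 of helper798, by helper344)
-/

namespace Pool.Agent.H344.BV

open Pool.Agent.H798.BV

theorem t_BR2 : S_BR2 := by
  intro p s hp hs hps
  have hp0 : 0 < p := by linarith
  have hs0 : 0 < s := by linarith
  have hpss : 0 < p + s := by linarith
  -- the strict inequality
  have hkey : p ^ 2 < (p - 1) * (p + s) := by
    have h1 : 1 / p + 1 / s = (p + s) / (p * s) := by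
      field_simp
      ring
    rw [h1, div_lt_one (mul_pos hp0 hs0)] at hps
    have h2 : (p - 1) * (p + s) = p ^ 2 + (p * s - (p + s)) := by ring
    rw [h2]
    linarith
  obtain ⟨ρ, hρ⟩ : ∃ ρ : ℝ, ρ = p ^ 2 / (p + s) := ⟨_, rfl⟩
  have hρ0 : 0 < ρ := by
    rw [hρ]
    positivity
  have hρ1 : ρ < p - 1 := by
    rw [hρ, div_lt_iff₀ hpss]
    exact hkey
  obtain ⟨Am, hAm⟩ : ∃ Am : ℝ, Am = min 1 (p - 1) := ⟨_, rfl⟩
  have hAm0 : 0 < Am := by
    rw [hAm]
    exact lt_min one_pos (by linarith)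
  have hAm1 : Am ≤ 1 := by
    rw [hAm]
    exact min_le_left _ _
  have hAm2 : Am ≤ p - 1 := by
    rw [hAm]
    exact min_le_right _ _
  obtain ⟨δ, hδ⟩ : ∃ δ : ℝ, δ = min 1 (p - 1 - ρ) := ⟨_, rfl⟩
  have hδ0 : 0 < δ := by
    rw [hδ]
    exact lt_min one_pos (by linarith)
  have hδ1 : δ ≤ 1 := by
    rw [hδ]
    exact min_le_left _ _
  have hδ2 : δ ≤ p - 1 - ρ := by
    rw [hδ]
    exact min_le_right _ _
  obtain ⟨m, hm⟩ : ∃ m : ℝ, m = min (Am * δ) (1 / 4) := ⟨_, rfl⟩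
  have hm0 : 0 < m := by
    rw [hm]
    exact lt_min (mul_pos hAm0 hδ0) (by norm_num)
  have hm1 : m ≤ Am * δ := by
    rw [hm]
    exact min_le_left _ _
  have hm2 : m ≤ 1 / 4 := by
    rw [hm]
    exact min_le_right _ _
  obtain ⟨K, hK⟩ : ∃ K : ℝ, K = p ^ 2 / 2 + 3 := ⟨_, rfl⟩
  have hK0 : 0 < K := by
    rw [hK]
    positivity
  obtain ⟨μ, hμ⟩ : ∃ μ : ℝ, μ = m / (4 * p) := ⟨_, rfl⟩
  have hμ0 : 0 < μ := by
    rw [hμ]
    positivity
  have hμp : 2 * μ * p = m / 2 := by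
    rw [hμ]
    field_simp
    ring
  have hμm : μ ≤ m := by
    rw [hμ, div_le_iff₀ (by positivity)]
    exact le_mul_of_one_le_right hm0.le (by linarith)
  obtain ⟨ε, hε⟩ : ∃ ε : ℝ, ε = min 1 (m / (2 * K)) := ⟨_, rfl⟩
  have hε0 : 0 < ε := by
    rw [hε]
    exact lt_min one_pos (by positivity)
  have hε1 : ε ≤ 1 := by
    rw [hε]
    exact min_le_left _ _
  have hεK : ε * K ≤ m / 2 := by
    have h1 : ε ≤ m / (2 * K) := by
      rw [hε]
      exact min_le_right _ _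
    calc ε * K ≤ m / (2 * K) * K := mul_le_mul_of_nonneg_right h1 hK0.le
      _ = m / 2 := by
        field_simp
  refine ⟨ε, μ, hε0, hμ0, ?_⟩
  intro u τ c hu0 hu1 hτ0 hτ1 hc0 hc
  obtain ⟨v, hv⟩ : ∃ v : ℝ, v = u ^ 2 := ⟨_, rfl⟩
  have hv0 : 0 ≤ v := by
    rw [hv]
    positivity
  have hv1 : v ≤ 1 := by
    rw [hv]
    exact pow_le_one₀ hu0 hu1
  obtain ⟨A, hA⟩ : ∃ A : ℝ, A = 1 + (p - 2) * v := ⟨_, rfl⟩
  have hv2 : 0 ≤ 1 - v := by linarith
  have hA1 : Am ≤ A := by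
    have h1 := mul_le_mul_of_nonneg_left hAm1 hv2
    have h2 := mul_le_mul_of_nonneg_left hAm2 hv0
    rw [hA]
    linarith
  have hA2 : A ≤ p := by
    have h1 : 0 ≤ (p - 1) * (1 - v) := mul_nonneg (by linarith) hv2
    rw [hA]
    linarith
  have hA3 : δ ≤ A - ρ * v := by
    have h1 := mul_le_mul_of_nonneg_left hδ1 hv2
    have h2 := mul_le_mul_of_nonneg_left hδ2 hv0
    rw [hA]
    linarith
  have hA0 : 0 < A := by linarith
  have hc2 : (c * u) ^ 2 ≤ ρ * A * v + ε * K := by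
    have h1 : (c * u) ^ 2 = c ^ 2 * v := by
      rw [hv]
      ring
    have h2 : c ^ 2 * v ≤ ((2 * p / (p + s) + ε) * (p / 2 * A + ε)) * v := by
      refine mul_le_mul_of_nonneg_right ?_ hv0
      rw [hA, hv]
      exact hc
    have h3 : (2 * p / (p + s) + ε) * (p / 2 * A + ε)
        = ρ * A + ε * (2 * p / (p + s) + p / 2 * A + ε) := by
      rw [hρ]
      field_simp
      ring
    have h4 : 2 * p / (p + s) ≤ 2 := by
      rw [div_le_iff₀ hpss]
      linarith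
    have h5 : 2 * p / (p + s) + p / 2 * A + ε ≤ K := by
      have h9 : p / 2 * A ≤ p / 2 * p := mul_le_mul_of_nonneg_left hA2 (by linarith)
      rw [hK]
      linarith
    have h6 : 0 ≤ 2 * p / (p + s) + p / 2 * A + ε := by positivity
    have h7 : ε * (2 * p / (p + s) + p / 2 * A + ε) * v ≤ ε * K := by
      have h8 : ε * (2 * p / (p + s) + p / 2 * A + ε) ≤ ε * K :=
        mul_le_mul_of_nonneg_left h5 hε0.le
      have h9 : ε * (2 * p / (p + s) + p / 2 * A + ε) * v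
          ≤ ε * (2 * p / (p + s) + p / 2 * A + ε) :=
        mul_le_of_le_one_right (mul_nonneg hε0.le h6) hv1
      linarith
    rw [h1]
    refine h2.trans ?_
    rw [h3, add_mul]
    linarith
  -- the case `τ = 0`
  have hf0 : μ ≤ A - c * u := by
    have h1 : 0 ≤ A - μ := by
      have : m ≤ Am := hm1.trans (mul_le_of_le_one_right hAm0.le hδ1)
      linarith
    have h2 : Am * δ ≤ A * (A - ρ * v) := mul_le_mul hA1 hA3 hδ0.le hA0.le
    have h3 : 2 * μ * A ≤ m / 2 := by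
      rw [← hμp]
      exact mul_le_mul_of_nonneg_left hA2 (by positivity)
    have h4 : (c * u) ^ 2 ≤ (A - μ) ^ 2 := by
      have e : (A - μ) ^ 2 = A * (A - ρ * v) + ρ * A * v - 2 * μ * A + μ ^ 2 := by ring
      rw [e]
      linarith [sq_nonneg μ]
    have h5 := abs_le_of_sq_le_sq' h4 h1
    linarith [h5.2]
  -- the case `τ = 1`
  have hf1 : μ ≤ 1 / 2 + (p - 1) * v - c * u := by
    have h0 : 0 ≤ (p - 1) * v := mul_nonneg (by linarith) hv0
    have h0' : (p - 1) * v ≤ p - 1 := mul_le_of_le_one_right (by linarith) hv1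
    have h1 : 0 ≤ 1 / 2 + (p - 1) * v - μ := by linarith
    have h2 : ρ * A * v ≤ (p - 1) * A * v := by
      refine mul_le_mul_of_nonneg_right ?_ hv0
      exact mul_le_mul_of_nonneg_right hρ1.le hA0.le
    have h3 : (1 / 2 + (p - 1) * v) ^ 2 - (p - 1) * A * v = 1 / 4 + (p - 1) * v ^ 2 := by
      rw [hA]
      ring
    have h4 : 2 * μ * (1 / 2 + (p - 1) * v) ≤ m / 2 := by
      rw [← hμp]
      refine mul_le_mul_of_nonneg_left ?_ (by positivity)
      linarith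
    have h5 : 0 ≤ (p - 1) * v ^ 2 := mul_nonneg (by linarith) (sq_nonneg _)
    have h6 : (c * u) ^ 2 ≤ (1 / 2 + (p - 1) * v - μ) ^ 2 := by
      have e : (1 / 2 + (p - 1) * v - μ) ^ 2 = ((1 / 2 + (p - 1) * v) ^ 2 - (p - 1) * A * v)
          + (p - 1) * A * v - 2 * μ * (1 / 2 + (p - 1) * v) + μ ^ 2 := by ring
      rw [e]
      linarith [sq_nonneg μ]
    have h7 := abs_le_of_sq_le_sq' h6 h1
    linarith [h7.2]
  have hfin : 1 + (p - 2) * u ^ 2 - c * u + τ * (u ^ 2 - 1 / 2)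
      = (1 - τ) * (A - c * u) + τ * (1 / 2 + (p - 1) * v - c * u) := by
    rw [hA, ← hv]
    ring
  rw [hfin]
  have h8 : (1 - τ) * μ ≤ (1 - τ) * (A - c * u) := mul_le_mul_of_nonneg_left hf0 (by linarith)
  have h9 : τ * μ ≤ τ * (1 / 2 + (p - 1) * v - c * u) := mul_le_mul_of_nonneg_left hf1 hτ0
  linarith

end Pool.Agent.H344.BV
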