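import Pool.Agent.H798.BV.Stm5

set_option autoImplicit false

/-!
helper344: (R1), the first regime, from (EE), (EE2), (AG).
-/

open Filter Topology

namespace Pool.Agent.H344.BV

open Pool.Agent.H798.BV

lemma prod_norm_le_one {m : ℕ} (l : Fin m → ℂ) (h : ∑ k, ‖l k‖ ≤ m) : ∏ k, ‖l k‖ ≤ 1 := by
  calc ∏ k, ‖l k‖ ≤ ∏ k, Real.exp (‖l k‖ - 1) := by
        apply Finset.prod_le_prod
        · intro k _
          exact norm_nonneg _
        · intro k _
          have := Real.add_one_le_exp (‖l k‖ - 1)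
          linarith
    _ = Real.exp (∑ k, (‖l k‖ - 1)) := by rw [Real.exp_sum]
    _ ≤ 1 := by
        rw [Real.exp_le_one_iff, Finset.sum_sub_distrib]
        simp
        exact h

theorem t_R1 (h1 : S_EE) (h2 : S_EE2) (h3 : S_AG) : S_R1 := by
  intro δ r hδ hδ1 hr hr1
  obtain ⟨c, hc⟩ : ∃ c : ℝ, c = min (δ * (1 - r)) (δ ^ 2) / 100 := ⟨_, rfl⟩
  have h1r : 0 < 1 - r := by linarith
  have hc0 : 0 < c := by
    rw [hc]
    have : 0 < min (δ * (1 - r)) (δ ^ 2) := lt_min (by positivity) (by positivity)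
    positivity
  have hc1 : 100 * c ≤ δ * (1 - r) := by
    rw [hc]
    have := min_le_left (δ * (1 - r)) (δ ^ 2)
    linarith
  have hc2 : 100 * c ≤ δ ^ 2 := by
    rw [hc]
    have := min_le_right (δ * (1 - r)) (δ ^ 2)
    linarith
  have hδ2 : δ ^ 2 ≤ 1 := pow_le_one₀ hδ.le hδ1
  obtain ⟨ε, hε⟩ : ∃ ε : ℝ, ε = min (δ / 8) ((1 - r) / 4) := ⟨_, rfl⟩
  have hε0 : 0 < ε := by
    rw [hε]
    exact lt_min (by positivity) (by positivity)
  have he1 : ε ≤ δ / 8 := by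
    rw [hε]
    exact min_le_left _ _
  have he2 : ε ≤ (1 - r) / 4 := by
    rw [hε]
    exact min_le_right _ _
  have hexp : ∀ᶠ y : ℝ in atTop, 3 / δ * Real.exp (-(δ * y / 2)) ≤ ε := by
    have ht : Tendsto (fun y : ℝ => 3 / δ * Real.exp (-(δ * y / 2))) atTop (𝓝 (3 / δ * 0)) := by
      apply Tendsto.const_mul
      apply Real.tendsto_exp_neg_atTop_nhds_zero.comp
      apply Tendsto.atTop_div_const (by norm_num)
      exact Tendsto.const_mul_atTop hδ tendsto_id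
    rw [mul_zero] at ht
    exact ht.eventually_le_const hε0
  have hall : ∀ᶠ y : ℝ in atTop, 3 / δ * Real.exp (-(δ * y / 2)) ≤ ε ∧ 1 ≤ y ∧ 1 / δ ≤ y ∧
      4 / (c * δ) ≤ y ∧ 6 / c ≤ y ∧ 4 * Real.log (4 / δ) / (δ * ((1 - r) / 4)) ≤ y := by
    filter_upwards [hexp, eventually_ge_atTop 1, eventually_ge_atTop (1 / δ),
      eventually_ge_atTop (4 / (c * δ)), eventually_ge_atTop (6 / c),
      eventually_ge_atTop (4 * Real.log (4 / δ) / (δ * ((1 - r) / 4)))] with y a1 a2 a3 a4 a5 a6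
    exact ⟨a1, a2, a3, a4, a5, a6⟩
  have htm : Tendsto (fun m : ℕ => (m : ℝ) ^ (1 / 4 : ℝ)) atTop atTop :=
    (tendsto_rpow_atTop (by norm_num)).comp tendsto_natCast_atTop_atTop
  obtain ⟨N, hN⟩ := eventually_atTop.1 (htm.eventually hall)
  refine ⟨max N 1, le_max_right _ _, ?_⟩
  intro m l a hm ha har hl hla hJ
  obtain ⟨b1, b2, b3, b4, b5, b6⟩ := hN m ((le_max_left _ _).trans hm)
  have hm1 : 1 ≤ m := (le_max_right _ _).trans hm
  set y : ℝ := (m : ℝ) ^ (1 / 4 : ℝ) with hy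
  have hy0 : 0 < y := by linarith
  have hy4 : y ^ 4 = m := by
    rw [hy, ← Real.rpow_natCast, ← Real.rpow_mul (Nat.cast_nonneg m)]
    norm_num
  have hm0 : (0 : ℝ) < m := by
    rw [← hy4]
    positivity
  have hyy2 : y ≤ y ^ 2 := by nlinarith
  have hyy3 : y ≤ y ^ 3 := by
    calc y ≤ y ^ 2 := hyy2
      _ ≤ y ^ 2 * y := le_mul_of_one_le_right (by positivity) b2
      _ = y ^ 3 := by ring
  have hyy4 : y ≤ y ^ 4 := by
    calc y ≤ y ^ 3 := hyy3
      _ ≤ y ^ 3 * y := le_mul_of_one_le_right (by positivity) b2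
      _ = y ^ 4 := by ring
  obtain ⟨η, hη⟩ : ∃ η : ℝ, η = c / y ^ 2 := ⟨_, rfl⟩
  have hη0 : 0 < η := by
    rw [hη]
    positivity
  have e1 : η * y = c / y := by
    rw [hη]
    field_simp
  have e2 : η * y ^ 2 = c := by
    rw [hη]
    field_simp
  have e3 : η * m = c * y ^ 2 := by
    rw [hη, ← hy4]
    field_simp
  have c1 : η * y ≤ 1 / 2 := by
    rw [e1, div_le_iff₀ hy0]
    linarith
  have c2 : η * y ^ 2 ≤ 1 := by
    rw [e2]
    linarith
  have c3 : y ≤ δ * m := by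
    rw [div_le_iff₀ hδ] at b3
    rw [← hy4]
    have h5 : (1 : ℝ) ≤ δ * y ^ 3 := by
      calc (1 : ℝ) ≤ y * δ := b3
        _ = δ * y := by ring
        _ ≤ δ * y ^ 3 := by gcongr
    calc y = 1 * y := by ring
      _ ≤ δ * y ^ 3 * y := by gcongr
      _ = δ * y ^ 4 := by ring
  have c4 : 4 ≤ η * δ * m := by
    have h5 : η * δ * m = c * δ * y ^ 2 := by
      calc η * δ * m = δ * (η * m) := by ring
        _ = c * δ * y ^ 2 := by rw [e3]; ring
    rw [h5]
    rw [div_le_iff₀ (by positivity)] at b4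
    calc (4 : ℝ) ≤ y * (c * δ) := b4
      _ = c * δ * y := by ring
      _ ≤ c * δ * y ^ 2 := by gcongr
  have c5 : 6 ≤ η * m := by
    rw [e3]
    rw [div_le_iff₀ hc0] at b5
    calc (6 : ℝ) ≤ y * c := b5
      _ = c * y := by ring
      _ ≤ c * y ^ 2 := by gcongr
  have c6 : 4 * η * y ^ 2 / δ = 4 * c / δ := by
    have h5 : 4 * η * y ^ 2 = 4 * (η * y ^ 2) := by ring
    rw [h5, e2]
  have c7 : 4 * c / δ ≤ δ / 25 := by
    rw [div_le_iff₀ hδ]
    have h5 : δ / 25 * δ = δ ^ 2 / 25 := by ring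
    rw [h5]
    linarith
  have c8 : 4 * c / δ ≤ (1 - r) / 25 := by
    rw [div_le_iff₀ hδ]
    have h5 : (1 - r) / 25 * δ = δ * (1 - r) / 25 := by ring
    rw [h5]
    linarith
  have ha1 : a ≤ 1 := by linarith
  have d1 := h1 m l a δ η y hm1 ha ha1 hδ hη0 hy0.le c1 c2 c3 c4 hl hla
  have hP0 : 0 ≤ ∏ k, ‖l k‖ := Finset.prod_nonneg fun k _ => norm_nonneg _
  have d2 : δ / 4 ≤ ∏ k, ‖l k‖ := by
    have h5 : a * ∏ k, ‖l k‖ ≤ ∏ k, ‖l k‖ := mul_le_of_le_one_left hP0 ha1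
    rw [c6] at d1
    linarith
  have d3 := h3 m l (η * m) (δ / 4) c5 (by positivity) hl d2
  have d4 : (1 : ℝ) / (δ / 4) = 4 / δ := by
    field_simp
  rw [d4] at d3
  have d5 : 2 * Real.log (4 / δ) = 2 * Real.log (4 / δ) / m * m := by
    field_simp
  rw [d5] at d3
  have d6 := h2 m l a δ η y (2 * Real.log (4 / δ) / m) hm1 ha ha1 hδ hη0 hy0.le c1 c2 c3 c4 hl hla d3
  rw [c6] at d6
  have d7 : 2 * (2 * Real.log (4 / δ) / m) / δ ≤ (1 - r) / 4 := by
    rw [div_le_iff₀ (by positivity)] at b6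
    have h5 : 2 * (2 * Real.log (4 / δ) / m) / δ = 4 * Real.log (4 / δ) / (m * δ) := by
      field_simp
      ring
    rw [h5, div_le_iff₀ (by positivity)]
    calc 4 * Real.log (4 / δ) ≤ y * (δ * ((1 - r) / 4)) := b6
      _ ≤ m * (δ * ((1 - r) / 4)) := by
          have : y ≤ m := by
            rw [← hy4]
            exact hyy4
          gcongr
      _ = (1 - r) / 4 * (m * δ) := by ring
  have d8 : a * ∏ k, ‖l k‖ ≤ r := by
    calc a * ∏ k, ‖l k‖ ≤ a * 1 := by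
          gcongr
          exact prod_norm_le_one l hl
      _ ≤ r := by linarith
  linarith

end Pool.Agent.H344.BV
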